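import Pool.Agent.Y382.NCH.Stm

/-!
NCH-IND: induction along a solvable quotient of odd order.
-/

set_option autoImplicit false
set_option linter.all false

universe u

namespace Pool.Agent.Y528.NCH

open Pool.Agent.Y382.NCH

theorem Full_of_equiv {G₁ G₂ : Type u} [Group G₁] [Group G₂] (e : G₁ ≃* G₂) (h : Full G₁) :
    Full G₂ := by
  classical
  intro a b hab
  have h1 : e.symm a * (e.symm b)⁻¹ ∈ commutator G₁ := by
    rw [← map_inv, ← map_mul]
    have h2 : (commutator G₂).map (e.symm : G₂ →* G₁) ≤ commutator G₁ := by
      rw [commutator_def, commutator_def, Subgroup.map_commutator]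
      exact Subgroup.commutator_mono le_top le_top
    exact h2 (Subgroup.mem_map_of_mem _ hab)
  obtain ⟨θ, g, hg, hb⟩ := h _ _ h1
  refine ⟨e.symm.toEquiv.trans (θ.trans e.toEquiv), e g, ?_, ?_⟩
  · show e g * e (θ (e.symm (e g))) = a
    rw [e.symm_apply_apply, ← map_mul, hg, e.apply_symm_apply]
  · have h3 : (fun x : G₂ => if x = e g then b else
        x * (e.symm.toEquiv.trans (θ.trans e.toEquiv)) x) =
        e ∘ (fun x : G₁ => if x = g then e.symm b else x * θ x) ∘ e.symm := by
      funext x
      simp only [Function.comp_apply]
      by_cases hx : x = e g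
      · have : e.symm x = g := by rw [hx, e.symm_apply_apply]
        rw [if_pos hx, if_pos this, e.apply_symm_apply]
      · have : e.symm x ≠ g := fun h => hx (by rw [← h, e.apply_symm_apply])
        rw [if_neg hx, if_neg this, map_mul, e.apply_symm_apply]
        rfl
    rw [h3]
    exact e.bijective.comp (hb.comp e.symm.bijective)

theorem main (hstep : S_STEP.{u}) : ∀ (n : ℕ) (G : Type u) [Group G] [Finite G] (H : Type u)
    [Group H] [Finite H] (κ : G →* H), Nat.card G = n → Group.IsSolvable H → Odd (Nat.card H) →
    Full κ.ker → Full G := by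
  intro n
  induction n using Nat.strong_induction_on with
  | _ n ih =>
    intro G _ _ H _ _ κ hn hs hodd hF
    by_cases hk : κ.ker = ⊤
    · rw [hk] at hF
      exact Full_of_equiv Subgroup.topEquiv hF
    · haveI := hs
      have hA : κ.ker ⊔ commutator G ≠ ⊤ := by
        intro hA
        haveI : Nontrivial κ.range := by
          by_contra hcon
          rw [not_nontrivial_iff_subsingleton] at hcon
          apply hk
          rw [eq_top_iff]
          intro x _
          rw [MonoidHom.mem_ker]
          have := hcon.elim ⟨κ x, x, rfl⟩ 1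
          exact congrArg Subtype.val this
        have hlt := Group.IsSolvable.commutator_lt_top_of_nontrivial κ.range
        apply hlt.ne
        rw [eq_top_iff]
        have h1 : (⊤ : Subgroup κ.range) = Subgroup.map κ.rangeRestrict ⊤ := by
          rw [← MonoidHom.range_eq_map]
          exact (MonoidHom.range_eq_top.2 κ.rangeRestrict_surjective).symm
        rw [h1, ← hA, Subgroup.map_sup]
        refine sup_le ?_ ?_
        · rintro _ ⟨x, hx, rfl⟩
          have : κ.rangeRestrict x = 1 := by
            apply Subtype.ext
            exact hx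
          rw [this]
          exact Subgroup.one_mem _
        · rw [commutator_def, commutator_def, Subgroup.map_commutator]
          exact Subgroup.commutator_mono le_top le_top
      obtain h | ⟨M, hM, hAM⟩ := eq_top_or_exists_le_coatom (κ.ker ⊔ commutator G)
      · exact absurd h hA
      have hkM : κ.ker ≤ M := le_sup_left.trans hAM
      have hcM : commutator G ≤ M := le_sup_right.trans hAM
      haveI hMn : M.Normal := Subgroup.Normal.of_commutator_le G hcM
      have hFM : Full M := by
        have hlt : Nat.card M < n := by
          rw [← hn]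
          exact lt_of_le_of_ne (Subgroup.card_le_card_group M)
            (fun h => hM.1 ((Subgroup.card_eq_iff_eq_top M).1 h))
        refine ih _ hlt M H (κ.comp M.subtype) rfl hs hodd ?_
        have e : (κ.comp M.subtype).ker = κ.ker.subgroupOf M := (MonoidHom.comap_ker _ _).symm
        rw [e]
        exact Full_of_equiv (Subgroup.subgroupOfEquivOfLe hkM).symm hF
      obtain ⟨g, hg⟩ : ∃ g : G, g ∉ M := by
        by_contra hcon
        push Not at hcon
        exact hM.1 (eq_top_iff.2 fun x _ => hcon x)
      have hgen : M ⊔ Subgroup.zpowers g = ⊤ := by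
        apply hM.2
        refine lt_of_le_of_ne le_sup_left ?_
        intro h
        apply hg
        rw [h]
        exact (le_sup_right : Subgroup.zpowers g ≤ M ⊔ Subgroup.zpowers g)
          (Subgroup.mem_zpowers g)
      have hq : ∀ i : G ⧸ M, i ∈ Subgroup.zpowers (QuotientGroup.mk' M g) := by
        intro i
        obtain ⟨a, rfl⟩ := QuotientGroup.mk'_surjective M i
        have ha : a ∈ ((M ⊔ Subgroup.zpowers g : Subgroup G) : Set G) := by rw [hgen]; trivial
        rw [Subgroup.normal_mul] at ha
        obtain ⟨m, hm, z, ⟨k, rfl⟩, rfl⟩ := ha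
        refine ⟨k, ?_⟩
        simp only [map_mul, map_zpow]
        have : QuotientGroup.mk' M m = 1 := (QuotientGroup.eq_one_iff m).2 hm
        rw [this, one_mul]
      have hoddQ : Odd (Nat.card (G ⧸ M)) := by
        have h1 : Nat.card (G ⧸ M) = M.index := rfl
        rw [h1]
        refine Odd.of_dvd_nat hodd ((Subgroup.index_dvd_of_le hkM).trans ?_)
        rw [Subgroup.index_ker]
        exact Subgroup.card_subgroup_dvd_card _
      exact hstep G M g hoddQ hq hFM

theorem t_IND : S_STEP.{u} → S_IND.{u} := by
  intro hstep G _ _ N _ hodd hs hF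
  refine main hstep _ G (G ⧸ N) (QuotientGroup.mk' N) rfl hs hodd ?_
  rw [QuotientGroup.ker_mk']
  exact hF

end Pool.Agent.Y528.NCH
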